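import Mathlib
import Pool.Agent.Q65.FrHyper
import Pool.Agent.Q65.FrZeros

/-!
# MP_f7c330_an: a holomorphic group without common hypercyclic vectors

There are a complex Fréchet space `X` and a holomorphic strongly continuous operator group
`(T z)` on `X` such that `a T_z` is hypercyclic for all `a, z ≠ 0`, but no vector is hypercyclic
for all of them.
-/

open Filter Topology MeasureTheory

set_option autoImplicit false

namespace Pool.Agent.Results.MP_f7c330_an.NoCommon

/-- `x` is a hypercyclic vector of `A`: the orbit `{A ^ n x : n ≥ 0}` is dense. -/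
def IsHypercyclicVector {X : Type*} [AddCommGroup X] [Module ℂ X] [TopologicalSpace X]
    (A : X →L[ℂ] X) (x : X) : Prop :=
  Dense (Set.range fun n : ℕ => (A ^ n) x)

/-- `(T z)` is a holomorphic strongly continuous operator group: `T 0 = I`,
`T (z + w) = T z T w`, and `z ↦ T z x` is (complex) differentiable for every `x`. -/
def IsHolomorphicGroup {X : Type*} [AddCommGroup X] [Module ℂ X] [TopologicalSpace X]
    (T : ℂ → X →L[ℂ] X) : Prop :=
  T 0 = ContinuousLinearMap.id ℂ X ∧ (∀ z w, T (z + w) = (T z).comp (T w)) ∧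
    ∀ x, Differentiable ℂ fun z => T z x

/-- `X` is a complex Fréchet space: a Hausdorff complete topological vector space whose topology
(uniformity) has a countable basis and is given by a family of seminorms (i.e. is locally
convex). -/
def IsFrechet (X : Type*) [AddCommGroup X] [Module ℂ X] [UniformSpace X] : Prop :=
  IsUniformAddGroup X ∧ ContinuousSMul ℂ X ∧ T2Space X ∧ CompleteSpace X ∧
    (uniformity X).IsCountablyGenerated ∧ PolynormableSpace ℂ X

open Q65.Fr

theorem pow_apply (a z : ℂ) (n : ℕ) (x : K) : ((a • T z) ^ n) x = a ^ n • T (n * z) x := by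
  induction n with
  | zero => simp [T_zero]
  | succ n ih =>
    rw [pow_succ', ContinuousLinearMap.mul_def, ContinuousLinearMap.comp_apply, ih, map_smul,
      _root_.smul_apply, ← T_add, smul_smul, pow_succ]
    congr 2
    push_cast
    ring_nf

theorem co_T_zero_le (u : ℂ) (hu : ‖u‖ ≤ 2) (v : K) : ‖co (T u v) 0‖ ≤ ‖v.1 1‖ := by
  have hs := ((tm u).summable_row v 0).norm
  rw [co_T, norm_level]
  have h1 := summable_co v 1
  refine (norm_tsum_le_tsum_norm hs).trans (Summable.tsum_le_tsum (fun n => ?_) hs h1)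
  have hc : (tm u).c 0 n = u ^ n / n.factorial * ((om (0 + n) / om 0 : ℝ) : ℂ) := rfl
  rw [hc, zero_add, norm_mul, om_zero, div_one, norm_mul, norm_div, norm_pow, Complex.norm_natCast,
    Complex.norm_real, Real.norm_eq_abs, abs_of_pos (om_pos n)]
  have h2 := om_le_factorial n
  have h3 : (0 : ℝ) < n.factorial := by exact_mod_cast n.factorial_pos
  have h4 : ‖u‖ ^ n / n.factorial * om n ≤ 2 ^ n := by
    rw [div_mul_eq_mul_div, div_le_iff₀ h3]
    have h5 : ‖u‖ ^ n ≤ 2 ^ n := pow_le_pow_left₀ (norm_nonneg u) hu n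
    exact mul_le_mul h5 h2 (om_pos n).le (by positivity)
  have h6 : (((1 : ℕ) : ℝ) + 1) ^ n = 2 ^ n := by norm_num
  rw [h6, mul_comm (‖co v n‖)]
  exact mul_le_mul_of_nonneg_right h4 (norm_nonneg _)

theorem co_T_es (u : ℂ) : co (T u (es 1)) 0 = u := by
  rw [co_T, tsum_eq_single 1]
  · simp [co_es, om_zero, om_one]
  · intro n hn
    simp [co_es, hn]

theorem near (u : ℂ) (hu : ‖u‖ ≤ 2) (y : K) : ‖co (T u y) 0 - u‖ ≤ ‖(y - es 1).1 1‖ := by
  have h1 : co (T u y) 0 - u = co (T u (y - es 1)) 0 := by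
    rw [map_sub, co_sub, co_T_es]
  rw [h1]
  exact co_T_zero_le u hu _

theorem growth (w : ℂ) (x : K) :
    ‖co (T w x) 0‖ ≤ ‖x.1 0‖ * Real.exp (‖w‖ ^ (3 / 2 : ℝ)) := by
  have hs := ((tm w).summable_row x 0).norm
  rw [co_T, norm_level]
  have h1 := summable_co x 0
  rw [← tsum_mul_right]
  refine (norm_tsum_le_tsum_norm hs).trans
    (Summable.tsum_le_tsum (fun n => ?_) hs (h1.mul_right _))
  have h2 := gz_le_exp (norm_nonneg w) n
  have hc : (tm w).c 0 n = w ^ n / n.factorial * ((om (0 + n) / om 0 : ℝ) : ℂ) := rfl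
  rw [hc, zero_add, norm_mul, om_zero, div_one, norm_mul, norm_div, norm_pow, Complex.norm_natCast,
    Complex.norm_real, Real.norm_eq_abs, abs_of_pos (om_pos n)]
  have h3 : (((0 : ℕ) : ℝ) + 1) ^ n = 1 := by norm_num
  rw [h3, mul_one, mul_comm (‖co x n‖)]
  exact mul_le_mul_of_nonneg_right h2 (norm_nonneg _)

theorem differentiable_F (x : K) : Differentiable ℂ fun w => co (T w x) 0 := by
  intro w
  have h1 := ((continuous_co 0).tendsto _).comp (tendsto_quotient_at x w)
  have h2 : HasDerivAt (fun w => co (T w x) 0) (co (bm.op (T w x)) 0) w := by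
    rw [hasDerivAt_iff_tendsto_slope_zero]
    refine h1.congr fun h => ?_
    simp
  exact h2.differentiableAt

instance : IsUniformAddGroup K := Ks.toAddSubgroup.isUniformAddGroup

instance : Nontrivial K := by
  refine ⟨es 0, 0, fun h => ?_⟩
  have := congrArg (fun x => co x 0) h
  simp [co_es] at this

theorem frequently_mem (x : K) (a z : ℂ) (h : IsHypercyclicVector (a • T z) x) (U : Set K)
    (hU : IsOpen U) (hne : U.Nonempty) : ∃ᶠ n : ℕ in atTop, ((a • T z) ^ n) x ∈ U := by
  rw [Filter.frequently_atTop]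
  intro N
  have hnb : ∀ y : K, NeBot (𝓝[≠] y) := fun y => Module.punctured_nhds_neBot ℂ K y
  have hfin : ((fun n : ℕ => ((a • T z) ^ n) x) '' {n | n < N}).Finite :=
    (Set.finite_lt_nat N).image _
  have hd := Dense.sdiff_finite h hfin
  obtain ⟨y, hyU, ⟨n, rfl⟩, hn⟩ := hd.inter_open_nonempty U hU hne
  refine ⟨n, ?_, hyU⟩
  by_contra hcon
  exact hn ⟨n, not_le.mp hcon, rfl⟩

/-- **Theorem.** There are a complex Fréchet space `X` and a holomorphic strongly continuous
operator group `(T z)` on `X` such that `a T_z` is hypercyclic for all non-zero `a` and `z`, but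
no vector `x` is hypercyclic for all the operators `a T_z` with `a, z ≠ 0`. -/
theorem result : ∃ (X : Type) (_ : AddCommGroup X) (_ : Module ℂ X) (_ : UniformSpace X)
    (_ : ContinuousConstSMul ℂ X) (T : ℂ → X →L[ℂ] X),
    IsFrechet X ∧ IsHolomorphicGroup T ∧
    (∀ a z : ℂ, a ≠ 0 → z ≠ 0 → ∃ x, IsHypercyclicVector (a • T z) x) ∧
    ¬ ∃ x, ∀ a z : ℂ, a ≠ 0 → z ≠ 0 → IsHypercyclicVector (a • T z) x := by
  refine ⟨K, inferInstance, inferInstance, inferInstance, inferInstance, T, ?_, ?_, ?_, ?_⟩
  · exact ⟨inferInstance, inferInstance, inferInstance, inferInstance, inferInstance,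
      inferInstance⟩
  · exact ⟨T_zero, fun z w => ContinuousLinearMap.ext fun x => T_add z w x, differentiable_T⟩
  · intro a z ha hz
    exact hypercyclic a z ha hz
  · rintro ⟨x, hx⟩
    set F : ℂ → ℂ := fun w => co (T w x) 0 with hF
    set U : Set K := {y | ‖(y - es 1).1 1‖ < 1 / 8} with hU
    have hUo : IsOpen U := by
      apply isOpen_lt _ continuous_const
      exact ((continuous_apply 1).comp (continuous_subtype_val.comp
        (continuous_id.sub continuous_const))).norm
    have hUn : U.Nonempty := ⟨es 1, by simp [hU]⟩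
    set P : Set (ℝ × ℂ) := Set.Ioo 0 1 ×ˢ Metric.ball 1 (1 / 2) with hP
    have hz0 : ∀ z : ℂ, z ∈ Metric.ball (1 : ℂ) (1 / 2) → z ≠ 0 ∧ ‖z‖ ≤ 2 := by
      intro z hz
      rw [mem_ball_iff_norm] at hz
      constructor
      · rintro rfl
        rw [zero_sub, norm_neg, norm_one] at hz
        norm_num at hz
      · have := norm_add_le (z - 1) 1
        rw [sub_add_cancel, norm_one] at this
        linarith
    have hmem : ∀ p ∈ P, ∃ᶠ n : ℕ in atTop, p ∈ En F n := by
      rintro ⟨α, z⟩ ⟨_, hz⟩
      obtain ⟨hz1, hz2⟩ := hz0 z hz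
      have h1 := frequently_mem x (Real.exp α : ℂ) z
        (hx _ z (by exact_mod_cast (Real.exp_pos α).ne') hz1) U hUo hUn
      refine h1.mono fun n hn => ⟨hz2, fun u hu => ?_⟩
      rw [pow_apply] at hn
      have h2 := near u hu ((Real.exp α : ℂ) ^ n • T (n * z) x)
      rw [map_smul, co_smul, ← T_add, add_comm u] at h2
      exact h2.trans_lt hn
    have hc : ∃ c, F c ≠ 0 := by
      have h1 := hmem (1 / 2, 1) ⟨⟨by norm_num, by norm_num⟩, by simp⟩
      obtain ⟨n, -, hn⟩ := h1.exists
      have h2 := hn 1 (by simp)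
      refine ⟨n * 1 + 1, fun h0 => ?_⟩
      simp only at h2
      rw [h0, mul_zero, zero_sub, norm_neg, norm_one] at h2
      norm_num at h2
    obtain ⟨c, hc⟩ := hc
    have hnull := null_limsup F (differentiable_F x) ‖x.1 0‖ (fun w => growth w x) c hc
    have hsub : P ⊆ limsup (fun n => En F n) atTop := by
      intro p hp
      rw [mem_limsup_iff_frequently_mem]
      exact hmem p hp
    have hP0 : volume P = 0 := measure_mono_null hsub hnull
    have hPpos : 0 < volume P := by
      apply IsOpen.measure_pos volume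
      · exact isOpen_Ioo.prod Metric.isOpen_ball
      · exact ⟨(1 / 2, 1), ⟨by norm_num, by norm_num⟩, by simp⟩
    exact hPpos.ne' hP0

end Pool.Agent.Results.MP_f7c330_an.NoCommon
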